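import Pool.Agent.W398.SG.Stm

/-!
Project SG, description of a space group by a representation and a cocycle.
-/

set_option autoImplicit false
set_option linter.unusedSectionVars false

namespace Pool.Agent.W135.SG.Ext

open Pool.Agent.W37.SG Pool.Agent.W398.SG
open scoped Matrix

universe u

section
variable {p : ℕ} [Fact p.Prime] {d : ℕ} {R : Type u} [Group R] [TopologicalSpace R]
  [IsTopologicalGroup R] (T : Subgroup R)
  (e : T ≃ₜ* Multiplicative (Fin d → ℤ_[p]))

open Classical in
/-- coordinates of the elements of `T` -/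
noncomputable def L (r : R) : Lat p d := if h : r ∈ T then Multiplicative.toAdd (e ⟨r, h⟩) else 0

/-- element with given coordinates -/
noncomputable def M (v : Lat p d) : R := (e.symm (Multiplicative.ofAdd v) : T)

variable {T}

lemma L_mem {r : R} (h : r ∈ T) : L T e r = Multiplicative.toAdd (e ⟨r, h⟩) := dif_pos h

lemma L_mul {r q : R} (hr : r ∈ T) (hq : q ∈ T) : L T e (r * q) = L T e r + L T e q := by
  rw [L_mem e hr, L_mem e hq, L_mem e (T.mul_mem hr hq), ← toAdd_mul, ← map_mul]
  rfl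

lemma M_mem (v : Lat p d) : M T e v ∈ T := (e.symm (Multiplicative.ofAdd v)).2

lemma L_M (v : Lat p d) : L T e (M T e v) = v := by
  rw [L_mem e (M_mem e v)]
  show Multiplicative.toAdd (e (e.symm (Multiplicative.ofAdd v))) = v
  rw [ContinuousMulEquiv.apply_symm_apply]
  rfl

lemma M_L {r : R} (hr : r ∈ T) : M T e (L T e r) = r := by
  rw [L_mem e hr]
  show ((e.symm (e ⟨r, hr⟩) : T) : R) = r
  rw [ContinuousMulEquiv.symm_apply_apply]

lemma L_inj {r q : R} (hr : r ∈ T) (hq : q ∈ T) (h : L T e r = L T e q) : r = q := by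
  rw [← M_L e hr, ← M_L e hq, h]

include e in
lemma T_comm {r q : R} (hr : r ∈ T) (hq : q ∈ T) : r * q = q * r := by
  apply L_inj e (T.mul_mem hr hq) (T.mul_mem hq hr)
  rw [L_mul e hr hq, L_mul e hq hr, add_comm]

lemma L_contAt (hT : IsOpen (T : Set R)) {r : R} (hr : r ∈ T) : ContinuousAt (L T e) r := by
  have h1 : ContinuousOn (L T e) (T : Set R) := by
    rw [continuousOn_iff_continuous_domRestrict]
    have : (T : Set R).domRestrict (L T e) = fun t : T => Multiplicative.toAdd (e t) := by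
      funext t
      exact L_mem e t.2
    rw [this]
    exact continuous_toAdd.comp e.continuous
  exact h1.continuousAt (hT.mem_nhds hr)

lemma M_cont : Continuous (M T e) := by
  unfold M
  exact continuous_subtype_val.comp (e.symm.continuous.comp continuous_ofAdd)

variable (ρR : R →* Mat p d)

lemma L_conj (hN : T.Normal) (hc : IsConj p T e ρR) (r : R) {t : R} (ht : t ∈ T) :
    L T e (r * t * r⁻¹) = ρR r *ᵥ L T e t := by
  have h1 : r * t * r⁻¹ ∈ T := hN.conj_mem t ht r
  rw [L_mem e h1, L_mem e ht]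
  exact hc r ⟨t, ht⟩ ⟨r * t * r⁻¹, h1⟩ rfl

lemma rho_T (hN : T.Normal) (hc : IsConj p T e ρR) {t : R} (ht : t ∈ T) : ρR t = 1 := by
  apply Matrix.mulVec_injective
  funext v
  rw [Matrix.one_mulVec]
  have h1 := L_conj e ρR hN hc t (M_mem e v)
  rw [T_comm e ht (M_mem e v), mul_inv_cancel_right, L_M] at h1
  exact h1.symm

lemma rho_eq (hN : T.Normal) (hc : IsConj p T e ρR) {r q : R} (h : (r : R ⧸ T) = (q : R ⧸ T)) :
    ρR r = ρR q := by
  have h1 : r⁻¹ * q ∈ T := QuotientGroup.eq.mp h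
  have h2 : q = r * (r⁻¹ * q) := by group
  rw [h2, map_mul, rho_T e ρR hN hc h1, mul_one]

lemma gen (hN : T.Normal) (hT : IsOpen (T : Set R))
    (hf : ∀ r : R, (∀ t ∈ T, r * t = t * r) → r ∈ T) (hc : IsConj p T e ρR)
    (G : Type) [Group G] (φ : G →* R ⧸ T) (hφ : Function.Bijective φ) :
    ∃ (ρ : G →* Mat p d) (f : G → G → Lat p d), IsCoc ρ f ∧ Real R ρ f ∧
      Function.Injective ρ ∧ ∀ (r : R) (g : G), φ g = (r : R ⧸ T) → ρ g = ρR r := by
  set s : G → R := fun g => Quotient.out (φ g) with hs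
  have hsm : ∀ g, ((s g : R) : R ⧸ T) = φ g := fun g => QuotientGroup.out_eq' _
  have hst : ∀ (g : G) (r : R), (r : R ⧸ T) = φ g → r * (s g)⁻¹ ∈ T := by
    intro g r h
    rw [← QuotientGroup.eq_one_iff, QuotientGroup.mk_mul, QuotientGroup.mk_inv, hsm, h,
      mul_inv_cancel]
  have hTmk : ∀ r : R, r ∈ T → (r : R ⧸ T) = 1 := fun r hr => (QuotientGroup.eq_one_iff r).mpr hr
  have hsg : ∀ x y : G, s x * s y * (s (x * y))⁻¹ ∈ T := by
    intro x y
    apply hst
    rw [QuotientGroup.mk_mul, hsm, hsm, map_mul]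
  -- the homomorphism
  let ρ : G →* Mat p d :=
    { toFun := fun g => ρR (s g)
      map_one' := by
        have : ρR (s 1) = ρR 1 := rho_eq e ρR hN hc (by rw [hsm, map_one]; rfl)
        rw [this, map_one]
      map_mul' := by
        intro x y
        rw [← map_mul]
        exact rho_eq e ρR hN hc (by rw [QuotientGroup.mk_mul, hsm, hsm, hsm, map_mul]) }
  have hρ : ∀ g, ρ g = ρR (s g) := fun g => rfl
  -- the projection
  let ψ : G ≃* R ⧸ T := MulEquiv.ofBijective φ hφ
  let π : R → G := fun r => ψ.symm (r : R ⧸ T)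
  have hπ : ∀ r, φ (π r) = (r : R ⧸ T) := fun r => ψ.apply_symm_apply _
  have hπ' : ∀ (r : R) (g : G), (r : R ⧸ T) = φ g → π r = g := by
    intro r g h
    apply hφ.1
    rw [hπ, h]
  have hπmul : ∀ r q, π (r * q) = π r * π q := by
    intro r q
    apply hπ'
    rw [QuotientGroup.mk_mul, map_mul, hπ, hπ]
  have hrT : ∀ r, r * (s (π r))⁻¹ ∈ T := fun r => hst _ _ (hπ r).symm
  refine ⟨ρ, fun x y => L T e (s x * s y * (s (x * y))⁻¹), ?_, ?_, ?_, ?_⟩
  · -- cocycle
    intro x y z
    have h1 : L T e (s x * s y * (s (x * y))⁻¹) + L T e (s (x * y) * s z * (s (x * y * z))⁻¹) =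
        L T e (s x * s y * s z * (s (x * y * z))⁻¹) := by
      rw [← L_mul e (hsg _ _) (hsg _ _)]
      congr 1
      group
    have h2 : ρ x *ᵥ L T e (s y * s z * (s (y * z))⁻¹) +
        L T e (s x * s (y * z) * (s (x * (y * z)))⁻¹) =
        L T e (s x * s y * s z * (s (x * (y * z)))⁻¹) := by
      rw [hρ, ← L_conj e ρR hN hc (s x) (hsg _ _),
        ← L_mul e (hN.conj_mem _ (hsg _ _) _) (hsg _ _)]
      congr 1
      group
    show L T e (s x * s y * (s (x * y))⁻¹) + L T e (s (x * y) * s z * (s (x * y * z))⁻¹) =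
      ρ x *ᵥ L T e (s y * s z * (s (y * z))⁻¹) + L T e (s x * s (y * z) * (s (x * (y * z)))⁻¹)
    rw [h1, h2, mul_assoc x y z]
  · -- realisation
    refine ⟨fun r => L T e (r * (s (π r))⁻¹), π, fun v g => M T e v * s g, ?_, ?_, ?_, ?_, ?_, ?_,
      hπmul, ?_⟩
    · rw [continuous_iff_continuousAt]
      intro r
      have hopen : ∀ᶠ q in nhds r, π q = π r := by
        have h1 : IsOpen ((fun q : R => q * (s (π r))⁻¹) ⁻¹' (T : Set R)) :=
          hT.preimage (by fun_prop)
        have h2 : r ∈ (fun q : R => q * (s (π r))⁻¹) ⁻¹' (T : Set R) := hrT r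
        filter_upwards [h1.mem_nhds h2] with q hq
        apply hπ'
        have h3 : ((q * (s (π r))⁻¹ : R) : R ⧸ T) = 1 := hTmk _ hq
        rw [QuotientGroup.mk_mul, QuotientGroup.mk_inv, hsm, mul_inv_eq_one] at h3
        exact h3
      have h3 : ContinuousAt (fun q : R => L T e (q * (s (π r))⁻¹)) r := by
        have h4 : ContinuousAt (L T e) (r * (s (π r))⁻¹) := L_contAt e hT (hrT r)
        exact ContinuousAt.comp (g := L T e) (f := fun q : R => q * (s (π r))⁻¹) h4
          (by fun_prop)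
      refine h3.congr ?_
      filter_upwards [hopen] with q hq
      rw [hq]
    · intro g
      have h1 : π ⁻¹' {g} = (fun q : R => q * (s g)⁻¹) ⁻¹' (T : Set R) := by
        ext q
        constructor
        · intro h
          have h' : π q = g := h
          show q * (s g)⁻¹ ∈ T
          rw [← h']
          exact hrT q
        · intro h
          have h3 : ((q * (s g)⁻¹ : R) : R ⧸ T) = 1 := hTmk _ h
          rw [QuotientGroup.mk_mul, QuotientGroup.mk_inv, hsm, mul_inv_eq_one] at h3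
          exact hπ' _ _ h3
      rw [h1]
      exact hT.preimage (by fun_prop)
    · intro g
      exact (M_cont e).mul continuous_const
    · intro r
      show M T e (L T e (r * (s (π r))⁻¹)) * s (π r) = r
      rw [M_L e (hrT r), inv_mul_cancel_right]
    · intro v g
      have h1 : π (M T e v * s g) = g := by
        apply hπ'
        rw [QuotientGroup.mk_mul, hTmk _ (M_mem e v), one_mul, hsm]
      show L T e (M T e v * s g * (s (π (M T e v * s g)))⁻¹) = v
      rw [h1, mul_inv_cancel_right, L_M]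
    · intro v g
      apply hπ'
      rw [QuotientGroup.mk_mul, hTmk _ (M_mem e v), one_mul, hsm]
    · intro r q
      show L T e (r * q * (s (π (r * q)))⁻¹) = L T e (r * (s (π r))⁻¹) +
        ρ (π r) *ᵥ L T e (q * (s (π q))⁻¹) + L T e (s (π r) * s (π q) * (s (π r * π q))⁻¹)
      rw [hπmul, hρ, ← L_conj e ρR hN hc (s (π r)) (hrT q),
        ← L_mul e (hrT r) (hN.conj_mem _ (hrT q) _),
        ← L_mul e (T.mul_mem (hrT r) (hN.conj_mem _ (hrT q) _)) (hsg _ _)]
      congr 1
      group
  · -- faithful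
    intro g h hgh
    rw [hρ, hρ] at hgh
    have h1 : ρR (s g * (s h)⁻¹) = 1 := by
      rw [map_mul, hgh, ← map_mul, mul_inv_cancel, map_one]
    have h2 : s g * (s h)⁻¹ ∈ T := by
      apply hf
      intro t ht
      have h3 := L_conj e ρR hN hc (s g * (s h)⁻¹) ht
      rw [h1, Matrix.one_mulVec] at h3
      have h4 := L_inj e (hN.conj_mem _ ht _) ht h3
      calc s g * (s h)⁻¹ * t = s g * (s h)⁻¹ * t * (s g * (s h)⁻¹)⁻¹ * (s g * (s h)⁻¹) := by
            group
        _ = t * (s g * (s h)⁻¹) := by rw [h4]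
    have h3 := hTmk _ h2
    rw [QuotientGroup.mk_mul, QuotientGroup.mk_inv, hsm, hsm, mul_inv_eq_one] at h3
    exact hφ.1 h3
  · intro r g h
    rw [hρ]
    exact rho_eq e ρR hN hc (by rw [hsm, h])

end

theorem main : S_EXT.{u} := by
  intro p _ d R _ _ _ T hN e ρR hT hfin hf hc
  have : Small.{0} (R ⧸ T) := Countable.toSmall _
  let φ : Shrink.{0} (R ⧸ T) ≃* R ⧸ T := Shrink.mulEquiv
  have : Finite (Shrink.{0} (R ⧸ T)) := Finite.of_equiv _ φ.toEquiv.symm
  obtain ⟨ρ, f, h1, h2, h3, h4⟩ := gen e ρR hN hT hf hc (Shrink.{0} (R ⧸ T)) φ.toMonoidHom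
    φ.bijective
  exact ⟨Shrink.{0} (R ⧸ T), inferInstance, inferInstance, φ, ρ, f, h1, h2, h3, h4⟩

end Pool.Agent.W135.SG.Ext
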